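import Mathlib

namespace Pool.Agent.Results.MP_5e3dfa_co.Order

open Finset

lemma cards {X : Type} [DecidableEq X] {k r : ℕ} (M : Fin k → Finset X) (hM : ∀ i, (M i).card = r)
    (hd : ∀ i j, i ≠ j → Disjoint (M i) (M j)) (c : Fin k → X) (hc : ∀ i, c i ∈ M i) :
    (univ.biUnion M).card = k * r ∧ (univ.image c).card = k ∧ univ.image c ⊆ univ.biUnion M := by
  refine ⟨?_, ?_, ?_⟩
  · rw [card_biUnion (fun i _ j _ h => hd i j h)]; simp [hM]
  · rw [card_image_of_injective, card_univ, Fintype.card_fin]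
    intro i j h
    by_contra hne
    exact disjoint_left.1 (hd i j hne) (hc i) (h ▸ hc j)
  · intro x hx
    obtain ⟨i, _, rfl⟩ := mem_image.1 hx
    exact mem_biUnion.2 ⟨i, mem_univ _, hc i⟩

/-- `⌊n/(2r)⌋ ≤ k_r(n) ≤ n/(2(r-1))` for `n = 2m`. -/
theorem result (m r k : ℕ) (hm : 2 ≤ m) (hr : 3 ≤ r) (𝓕 : Finset (Finset (Fin (2 * m))))
    (h1 : ∀ F ∈ 𝓕, F.card = m) (_h2 : ∀ F ∈ 𝓕, ∀ F' ∈ 𝓕, (F ∩ F').Nonempty)
    (h3 : ∀ A : Finset (Fin (2 * m)), A.card = m →
      (∀ F ∈ insert A 𝓕, ∀ F' ∈ insert A 𝓕, (F ∩ F').Nonempty) → A ∈ 𝓕) :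
    (k * r ≤ m → ∃ M : Fin k → Finset (Fin (2 * m)), (∀ i, (M i).card = r) ∧
      (∀ i j, i ≠ j → Disjoint (M i) (M j)) ∧ ∀ c : Fin k → Fin (2 * m), (∀ i, c i ∈ M i) →
        ∃ F ∈ 𝓕, F ∩ Finset.univ.biUnion M = Finset.univ.image c) ∧
    ((∃ M : Fin k → Finset (Fin (2 * m)), (∀ i, (M i).card = r) ∧
      (∀ i j, i ≠ j → Disjoint (M i) (M j)) ∧ ∀ c : Fin k → Fin (2 * m), (∀ i, c i ∈ M i) →
        ∃ F ∈ 𝓕, F ∩ Finset.univ.biUnion M = Finset.univ.image c) → k * (r - 1) ≤ m) := by
  refine ⟨fun hk => ?_, ?_⟩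
  · obtain ⟨e⟩ : Nonempty (Fin 2 × Fin k × Fin r ↪ Fin (2 * m)) :=
      Function.Embedding.nonempty_of_card_le (by simp; omega)
    let M : Fin 2 → Fin k → Finset (Fin (2 * m)) := fun b i => univ.image (fun j => e (b, i, j))
    have cM : ∀ b i, (M b i).card = r := fun b i => by
      rw [card_image_of_injective, card_univ, Fintype.card_fin]
      intro x y h; simpa using e.injective h
    have dM : ∀ b i b' j, (b, i) ≠ (b', j) → Disjoint (M b i) (M b' j) := by
      intro b i b' j h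
      rw [disjoint_left]; intro x hx hy
      obtain ⟨s, _, rfl⟩ := mem_image.1 hx
      obtain ⟨t, _, ht⟩ := mem_image.1 hy
      have := e.injective ht
      simp only [Prod.mk.injEq] at this
      exact h (by rw [this.1, this.2.1])
    have dM' : ∀ b i j, i ≠ j → Disjoint (M b i) (M b j) := fun b i j h =>
      dM b i b j (fun h' => h (Prod.mk.inj h').2)
    by_contra hc
    push Not at hc
    obtain ⟨c0, a0, b0⟩ := hc (M 0) (cM 0) (dM' 0)
    obtain ⟨c1, a1, b1⟩ := hc (M 1) (cM 1) (dM' 1)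
    obtain ⟨u0, t0, s0⟩ := cards (M 0) (cM 0) (dM' 0) c0 a0
    obtain ⟨u1, t1, s1⟩ := cards (M 1) (cM 1) (dM' 1) c1 a1
    have dU : Disjoint (univ.biUnion (M 0)) (univ.biUnion (M 1)) := by
      rw [disjoint_biUnion_left]; intro i _
      rw [disjoint_biUnion_right]; intro j _
      exact dM 0 i 1 j (by simp)
    generalize univ.biUnion (M 0) = U0 at *
    generalize univ.biUnion (M 1) = U1 at *
    generalize univ.image c0 = T0 at *
    generalize univ.image c1 = T1 at *
    have kk := card_le_card s0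
    have cB : ((U0 \ T0) ∪ T1).card = k * r := by
      rw [card_union_of_disjoint (dU.mono sdiff_subset s1), card_sdiff_of_subset s0]; omega
    have cC : (((U0 \ T0) ∪ T1) ∪ (U0 ∪ U1)ᶜ).card = k * r + (2 * m - (k * r + k * r)) := by
      rw [card_union_of_disjoint (disjoint_compl_right.mono_left
        (union_subset_union sdiff_subset s1)), cB, card_compl, card_union_of_disjoint dU,
        Fintype.card_fin, u0, u1]
    obtain ⟨A, p1, p2, cA⟩ := exists_subsuperset_card_eq (n := m)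
      (subset_union_left (s₁ := (U0 \ T0) ∪ T1) (s₂ := (U0 ∪ U1)ᶜ)) (by omega) (by omega)
    have hd := disjoint_left.1 dU
    have nA : A ∉ 𝓕 := fun h => b1 A h (by
      ext x
      have := @p1 x; have := @p2 x; have := @s1 x; have := @hd x
      simp only [mem_inter, mem_union, mem_sdiff, mem_compl] at *
      tauto)
    have nA' : Aᶜ ∉ 𝓕 := fun h => b0 Aᶜ h (by
      ext x
      have := @p1 x; have := @p2 x; have := @s1 x; have := @s0 x; have := @hd x
      simp only [mem_inter, mem_union, mem_sdiff, mem_compl] at *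
      tauto)
    have key : ∀ F ∈ 𝓕, (A ∩ F).Nonempty := by
      intro F hF
      by_contra h
      rw [not_nonempty_iff_eq_empty, ← disjoint_iff_inter_eq_empty] at h
      have : F = Aᶜ := eq_of_subset_of_card_le (subset_compl_iff_disjoint_left.2 h)
        (by rw [card_compl, Fintype.card_fin, h1 F hF]; omega)
      exact nA' (this ▸ hF)
    apply nA (h3 A cA _)
    intro F hF F' hF'
    rcases mem_insert.1 hF with rfl | hF <;> rcases mem_insert.1 hF' with e' | hF'
    · rw [e', inter_self, ← card_pos]; omega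
    · exact key F' hF'
    · rw [e', inter_comm]; exact key F hF
    · exact _h2 F hF F' hF'
  · rintro ⟨M, cM, dM, H⟩
    have ne : ∀ i, (M i).Nonempty := fun i => by rw [← card_pos, cM]; omega
    choose c hc using ne
    obtain ⟨F, hF, e⟩ := H c hc
    obtain ⟨u, t, _⟩ := cards M cM dM c hc
    have a := card_union_add_card_inter F (univ.biUnion M)
    have b := card_le_univ (F ∪ univ.biUnion M)
    rw [Fintype.card_fin] at b
    rw [e, t, u, h1 F hF] at a
    rw [Nat.mul_sub_one]
    omega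

end Pool.Agent.Results.MP_5e3dfa_co.Order
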